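import Mathlib

/-!
# Signature-lexicographic initial segments do not minimise the deletion shadow

For every alphabet size `r ≥ 3` and every word length `n + 1 ≥ 4` there is a signature whose initial
segment does not have minimal deletion shadow given its size.
-/

set_option autoImplicit false

namespace Pool.Agent.Results.MP_5f67f4_co.Disproof

open Finset

section defs

variable {r n : ℕ}

/-- The word of length `n` obtained from the word `w` of length `n + 1` over the alphabet `Fin r` by
deleting its letter in position `i`. -/
def deleteLetter (w : Fin (n + 1) → Fin r) (i : Fin (n + 1)) : Fin n → Fin r :=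
  fun j => w (i.succAbove j)

/-- The deletion shadow of a family of words of length `n + 1`: all words obtained from a word of the
family by deleting one letter. -/
def shadow (F : Finset (Fin (n + 1) → Fin r)) : Finset (Fin n → Fin r) :=
  F.biUnion fun w => univ.image (deleteLetter w)

/-- `F` has minimal deletion shadow given its size. -/
def HasMinimalShadow (F : Finset (Fin (n + 1) → Fin r)) : Prop :=
  ∀ G : Finset (Fin (n + 1) → Fin r), G.card = F.card → (shadow F).card ≤ (shadow G).card

/-- The number of occurrences of the letter `a` in the word `w`. -/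
def count (a : Fin r) (w : Fin n → Fin r) : ℕ := (univ.filter fun j => w j = a).card

/-- The signature of a word: the vector of the numbers of occurrences of the letters, the largest
letter first, as an element of the lexicographically ordered set of vectors. -/
def signature (w : Fin n → Fin r) : Lex (Fin r → ℕ) := toLex fun i => count i.rev w

open Classical in
/-- The words of length `n` whose signature is lexicographically at most `s`. -/
noncomputable def initialSegment (n : ℕ) (s : Lex (Fin r → ℕ)) : Finset (Fin n → Fin r) :=
  univ.filter fun w => signature w ≤ s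

end defs

section letters

variable {k N : ℕ}

/-- The three smallest letters. -/
def A0 (k : ℕ) : Fin (k + 3) := ⟨0, by omega⟩
/-- The three smallest letters. -/
def A1 (k : ℕ) : Fin (k + 3) := ⟨1, by omega⟩
/-- The three smallest letters. -/
def A2 (k : ℕ) : Fin (k + 3) := ⟨2, by omega⟩

/-- The signature `(0, …, 0, 1, N - 2, 2)`. -/
def sVec (k N : ℕ) : Fin (k + 3) → ℕ := fun i =>
  if i.rev = A2 k then 1 else if i.rev = A1 k then N - 2 else if i.rev = A0 k then 2 else 0

theorem sVec_rev (a : Fin (k + 3)) : sVec k N a.rev =
    if a = A2 k then 1 else if a = A1 k then N - 2 else if a = A0 k then 2 else 0 := by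
  simp [sVec]

theorem sum_three (f : Fin (k + 3) → ℕ) (hf : ∀ a : Fin (k + 3), 3 ≤ a.val → f a = 0) :
    ∑ a, f a = f (A0 k) + f (A1 k) + f (A2 k) := by
  rw [Fin.sum_univ_succ, Fin.sum_univ_succ, Fin.sum_univ_succ]
  have : ∑ i : Fin k, f i.succ.succ.succ = 0 := Finset.sum_eq_zero fun i _ => hf _ (by simp)
  rw [this]
  have h0 : (0 : Fin (k + 3)) = A0 k := rfl
  have h1 : (0 : Fin (k + 2)).succ = A1 k := rfl
  have h2 : ((0 : Fin (k + 1)).succ.succ : Fin (k + 3)) = A2 k := rfl
  rw [h0, h1, h2]
  ring

theorem sum_sVec (hN : 3 ≤ N) : ∑ i, sVec k N i = N + 1 := by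
  have : ∑ i, sVec k N i = ∑ i : Fin (k + 3), sVec k N i.rev :=
    (Equiv.sum_comp Fin.revPerm (sVec k N)).symm
  rw [this, sum_three]
  · simp only [sVec_rev]
    simp [A0, A1, A2]
    omega
  · intro a ha
    rw [sVec_rev, if_neg, if_neg, if_neg] <;> · rintro rfl; simp [A0, A1, A2] at ha

theorem count_total {m : ℕ} (w : Fin m → Fin (k + 3)) : ∑ a, count a w = m := by
  have := Finset.card_eq_sum_card_fiberwise (f := w) (s := (univ : Finset (Fin m)))
    (t := (univ : Finset (Fin (k + 3)))) (fun _ _ => by simp)
  simpa [count] using this.symm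

theorem count_eq_zero_iff {m : ℕ} (a : Fin (k + 3)) (w : Fin m → Fin (k + 3)) :
    count a w = 0 ↔ ∀ j, w j ≠ a := by
  simp [count, Finset.filter_eq_empty_iff]

theorem count_three {m : ℕ} (w : Fin m → Fin (k + 3)) (hw : ∀ j, (w j).val ≤ 2) :
    count (A0 k) w + count (A1 k) w + count (A2 k) w = m := by
  rw [← sum_three (fun a => count a w), count_total]
  intro a ha
  rw [count_eq_zero_iff]
  intro j hj
  have := hw j
  rw [hj] at this
  omega

theorem sVec_big (i : Fin (k + 3)) (hi : 3 ≤ i.rev.val) : sVec k N i = 0 := by
  unfold sVec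
  rw [if_neg, if_neg, if_neg] <;> · intro h; rw [h] at hi; simp [A0, A1, A2] at hi

theorem rev_lt {i j : Fin (k + 3)} (h : j < i) : i.rev.val < j.rev.val := by
  have := Fin.rev_lt_rev.mpr h
  exact this

theorem mem_init (hN : 3 ≤ N) (w : Fin (N + 1) → Fin (k + 3)) :
    w ∈ initialSegment (N + 1) (toLex (sVec k N)) ↔
      (∀ j, (w j).val ≤ 2) ∧
        (count (A2 k) w = 0 ∨ (count (A2 k) w = 1 ∧ count (A1 k) w ≤ N - 2)) := by
  unfold initialSegment signature
  rw [Finset.mem_filter]
  simp only [Finset.mem_univ, true_and]
  constructor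
  · intro h
    have big : ∀ i : Fin (k + 3), 3 ≤ i.rev.val → count i.rev w = 0 := by
      intro i
      induction i using WellFoundedLT.induction with
      | ind i ih =>
        intro hi
        have h1 := Pi.apply_le_of_toLex (i := i) h (fun j hj => by
          have h3 : 3 ≤ j.rev.val := by have := rev_lt hj; omega
          rw [ih j hj h3, sVec_big j h3])
        rw [sVec_big i hi] at h1
        exact Nat.le_zero.mp h1
    have hle : ∀ j, (w j).val ≤ 2 := by
      intro j
      by_contra hj
      have h0 := big (w j).rev (by rw [Fin.rev_rev]; omega)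
      rw [Fin.rev_rev, count_eq_zero_iff] at h0
      exact h0 j rfl
    refine ⟨hle, ?_⟩
    have h2 : count (A2 k) w ≤ 1 := by
      have h1 := Pi.apply_le_of_toLex (i := (A2 k).rev) h (fun j hj => by
        have h3 : 3 ≤ j.rev.val := by
          have := rev_lt hj
          rw [Fin.rev_rev] at this
          simp only [A2] at this; exact this
        rw [big j h3, sVec_big j h3])
      rw [sVec_rev, if_pos rfl, Fin.rev_rev] at h1
      exact h1
    rcases Nat.eq_zero_or_pos (count (A2 k) w) with h0 | hpos
    · exact Or.inl h0
    · right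
      have h21 : count (A2 k) w = 1 := by omega
      refine ⟨h21, ?_⟩
      have h1 := Pi.apply_le_of_toLex (i := (A1 k).rev) h (fun j hj => by
        have h3 : 2 ≤ j.rev.val := by
          have := rev_lt hj
          rw [Fin.rev_rev] at this
          simp only [A1] at this; exact this
        rcases Nat.lt_or_ge j.rev.val 3 with h4 | h4
        · have h5 : j.rev = A2 k := Fin.ext (by simp only [A2]; omega)
          rw [h5, h21]
          unfold sVec
          rw [if_pos h5]
        · rw [big j h4, sVec_big j h4])
      rw [sVec_rev, if_neg, if_pos rfl, Fin.rev_rev] at h1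
      · exact h1
      · simp [A1, A2]
  · rintro ⟨h1, h2⟩
    have big : ∀ i : Fin (k + 3), 3 ≤ i.rev.val → count i.rev w = 0 := by
      intro i hi
      rw [count_eq_zero_iff]
      intro j hj
      have := h1 j
      rw [hj] at this
      omega
    have hlt2 : ∀ j : Fin (k + 3), j < (A2 k).rev → count j.rev w = sVec k N j := by
      intro j hj
      have h3 : 3 ≤ j.rev.val := by
        have := rev_lt hj
        rw [Fin.rev_rev] at this
        simp only [A2] at this; exact this
      rw [big j h3, sVec_big j h3]
    rcases h2 with h2 | ⟨h2, h3⟩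
    · apply le_of_lt
      refine ⟨(A2 k).rev, fun j hj => hlt2 j hj, ?_⟩
      change count (A2 k).rev.rev w < sVec k N (A2 k).rev
      rw [Fin.rev_rev, sVec_rev, if_pos rfl, h2]
      exact Nat.one_pos
    · have hlt1 : ∀ j : Fin (k + 3), j < (A1 k).rev → count j.rev w = sVec k N j := by
        intro j hj
        have h3 : 2 ≤ j.rev.val := by
          have := rev_lt hj
          rw [Fin.rev_rev] at this
          simp only [A1] at this; exact this
        rcases Nat.lt_or_ge j.rev.val 3 with h4 | h4
        · have h5 : j.rev = A2 k := Fin.ext (by simp only [A2]; omega)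
          rw [h5, h2]
          unfold sVec
          rw [if_pos h5]
        · rw [big j h4, sVec_big j h4]
      rcases Nat.lt_or_ge (count (A1 k) w) (N - 2) with h4 | h4
      · apply le_of_lt
        refine ⟨(A1 k).rev, fun j hj => hlt1 j hj, ?_⟩
        change count (A1 k).rev.rev w < sVec k N (A1 k).rev
        rw [Fin.rev_rev, sVec_rev, if_neg (by simp [A1, A2]), if_pos rfl]
        exact h4
      · apply le_of_eq
        congr 1
        funext i
        have htot := count_three w h1
        rcases Nat.lt_or_ge i.rev.val 3 with h5 | h5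
        · have hcases : i.rev = A0 k ∨ i.rev = A1 k ∨ i.rev = A2 k := by
            have : i.rev.val = 0 ∨ i.rev.val = 1 ∨ i.rev.val = 2 := by omega
            rcases this with h | h | h
            · exact Or.inl (Fin.ext (by simp only [A0]; omega))
            · exact Or.inr (Or.inl (Fin.ext (by simp only [A1]; omega)))
            · exact Or.inr (Or.inr (Fin.ext (by simp only [A2]; omega)))
          unfold sVec
          rcases hcases with h | h | h
          · rw [if_neg (by rw [h]; simp [A0, A2]), if_neg (by rw [h]; simp [A0, A1]), if_pos h, h]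
            omega
          · rw [if_neg (by rw [h]; simp [A1, A2]), if_pos h, h]
            omega
          · rw [if_pos h, h]
            omega
        · rw [big i h5, sVec_big i h5]

/-- The words over the three smallest letters with at most one occurrence of the third. -/
def Full (k m : ℕ) : Finset (Fin m → Fin (k + 3)) :=
  univ.filter fun w => (∀ j, (w j).val ≤ 2) ∧ count (A2 k) w ≤ 1

/-- The positions where the letter is not the second one. -/
def D {k m : ℕ} (w : Fin m → Fin (k + 3)) : Finset (Fin m) := univ.filter fun j => w j ≠ A1 k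

theorem mem_D {m : ℕ} (w : Fin m → Fin (k + 3)) (j : Fin m) : j ∈ D w ↔ w j ≠ A1 k := by
  simp [D]

theorem card_D {m : ℕ} (w : Fin m → Fin (k + 3)) : (D w).card + count (A1 k) w = m := by
  have := Finset.card_filter_add_card_filter_not (s := (univ : Finset (Fin m)))
    (fun j => w j ≠ A1 k)
  simpa [D, count] using this

/-- A word in `Full` has the third letter in at most one place. -/
theorem unique_A2 {m : ℕ} {w : Fin m → Fin (k + 3)} (hw : w ∈ Full k m) {i j : Fin m}
    (hi : w i = A2 k) (hj : w j = A2 k) : i = j := by
  have h := (Finset.mem_filter.mp hw).2.2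
  unfold count at h
  exact Finset.card_le_one.mp h i (by simp [hi]) j (by simp [hj])

theorem letter_cases {m : ℕ} {w : Fin m → Fin (k + 3)} (hw : w ∈ Full k m) (j : Fin m) :
    w j = A0 k ∨ w j = A1 k ∨ w j = A2 k := by
  have h := (Finset.mem_filter.mp hw).2.1 j
  have : (w j).val = 0 ∨ (w j).val = 1 ∨ (w j).val = 2 := by omega
  rcases this with h | h | h
  · exact Or.inl (Fin.ext h)
  · exact Or.inr (Or.inl (Fin.ext h))
  · exact Or.inr (Or.inr (Fin.ext h))

theorem A0_ne_A1 : A0 k ≠ A1 k := by simp [A0, A1]
theorem A0_ne_A2 : A0 k ≠ A2 k := by simp [A0, A2]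
theorem A1_ne_A2 : A1 k ≠ A2 k := by simp [A1, A2]

/-- The words with one third letter and at most one first letter. -/
def R (k N : ℕ) : Finset (Fin (N + 1) → Fin (k + 3)) :=
  (Full k (N + 1)).filter fun w => count (A2 k) w = 1 ∧ N - 1 ≤ count (A1 k) w

theorem card_R (k N : ℕ) : (N + 1) * (N + 1) ≤ (R k N).card := by
  let ρ : Fin (N + 1) × Fin (N + 1) → (Fin (N + 1) → Fin (k + 3)) := fun pq j =>
    if j = pq.1 then A2 k else if j = pq.2 then A0 k else A1 k
  have hinj : Function.Injective ρ := by
    rintro ⟨p, q⟩ ⟨p', q'⟩ h
    have hp : p = p' := by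
      have h1 : ρ (p, q) p = ρ (p', q') p := congrFun h p
      by_contra hne
      simp only [ρ, if_true, if_neg hne] at h1
      split_ifs at h1
      · exact A0_ne_A2 h1.symm
      · exact A1_ne_A2 h1.symm
    subst hp
    have hq : q = q' := by
      by_contra hne
      have h1 : ρ (p, q) q = ρ (p, q') q := congrFun h q
      have h2 : ρ (p, q) q' = ρ (p, q') q' := congrFun h q'
      simp only [ρ, if_true, if_neg hne, if_neg (Ne.symm hne)] at h1 h2
      split_ifs at h1 with h3
      · subst h3
        rw [if_neg (Ne.symm hne), if_neg (Ne.symm hne)] at h2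
        exact A0_ne_A1 h2.symm
      · exact A0_ne_A1 h1
    rw [hq]
  have hsub : (univ : Finset (Fin (N + 1) × Fin (N + 1))).image ρ ⊆ R k N := by
    intro w hw
    obtain ⟨⟨p, q⟩, -, rfl⟩ := Finset.mem_image.mp hw
    have hA2 : count (A2 k) (ρ (p, q)) = 1 := by
      unfold count
      rw [Finset.card_eq_one]
      refine ⟨p, ?_⟩
      ext j
      simp only [Finset.mem_filter, Finset.mem_univ, true_and, Finset.mem_singleton, ρ]
      constructor
      · intro h
        by_contra hne
        rw [if_neg hne] at h
        split_ifs at h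
        · exact A0_ne_A2 h
        · exact A1_ne_A2 h
      · intro h
        rw [if_pos h]
    unfold R Full
    rw [Finset.mem_filter, Finset.mem_filter]
    refine ⟨⟨Finset.mem_univ _, ?_, hA2.le⟩, hA2, ?_⟩
    · intro j
      simp only [ρ]
      split_ifs <;> simp [A0, A1, A2]
    · have h1 := card_D (ρ (p, q))
      have h2 : (D (ρ (p, q))).card ≤ 2 := by
        have : D (ρ (p, q)) ⊆ {p, q} := by
          intro j hj
          rw [mem_D] at hj
          simp only [ρ] at hj
          split_ifs at hj with h3 h4
          · simp [h3]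
          · simp [h4]
          · exact absurd rfl hj
        exact (Finset.card_le_card this).trans Finset.card_le_two
      omega
  calc (N + 1) * (N + 1) = (univ : Finset (Fin (N + 1) × Fin (N + 1))).card := by simp
    _ = ((univ : Finset (Fin (N + 1) × Fin (N + 1))).image ρ).card :=
        (Finset.card_image_of_injective _ hinj).symm
    _ ≤ _ := Finset.card_le_card hsub

theorem card_init_le (hN : 3 ≤ N) :
    (initialSegment (N + 1) (toLex (sVec k N))).card + (N + 1) * (N + 1) ≤
      (Full k (N + 1)).card := by
  have hdisj : Disjoint (initialSegment (N + 1) (toLex (sVec k N))) (R k N) := by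
    rw [Finset.disjoint_left]
    intro w h1 h2
    rw [mem_init hN] at h1
    obtain ⟨-, h3, h4⟩ := Finset.mem_filter.mp h2
    rcases h1.2 with h5 | ⟨h5, h6⟩ <;> omega
  have hsub : (initialSegment (N + 1) (toLex (sVec k N))) ∪ (R k N) ⊆ Full k (N + 1) := by
    apply Finset.union_subset
    · intro w h1
      rw [mem_init hN] at h1
      unfold Full
      rw [Finset.mem_filter]
      refine ⟨Finset.mem_univ _, h1.1, ?_⟩
      rcases h1.2 with h5 | ⟨h5, h6⟩ <;> omega
    · exact Finset.filter_subset _ _
  calc _ ≤ (initialSegment (N + 1) (toLex (sVec k N))).card + (R k N).card :=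
        Nat.add_le_add_left (card_R k N) _
    _ = ((initialSegment (N + 1) (toLex (sVec k N))) ∪ (R k N)).card :=
        (Finset.card_union_of_disjoint hdisj).symm
    _ ≤ _ := Finset.card_le_card hsub

theorem count_cons {m : ℕ} (a b : Fin (k + 3)) (w : Fin m → Fin (k + 3)) :
    count a (Fin.cons b w : Fin (m + 1) → Fin (k + 3)) = (if b = a then 1 else 0) + count a w := by
  unfold count
  rw [Finset.card_filter, Finset.card_filter, Fin.sum_univ_succ]
  simp

theorem deleteLetter_cons {m : ℕ} (b : Fin (k + 3)) (w : Fin m → Fin (k + 3)) :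
    deleteLetter (Fin.cons b w : Fin (m + 1) → Fin (k + 3)) 0 = w := by
  funext j
  simp [deleteLetter]

theorem card_shadow_init (hN : 3 ≤ N) :
    (Full k N).card ≤ (shadow (initialSegment (N + 1) (toLex (sVec k N)))).card + N := by
  let ξ : Fin N → (Fin N → Fin (k + 3)) := fun p j => if j = p then A2 k else A1 k
  have hsub : Full k N ⊆ shadow (initialSegment (N + 1) (toLex (sVec k N))) ∪ univ.image ξ := by
    intro v hv
    rw [Finset.mem_union]
    by_cases hx : v ∈ univ.image ξ
    · exact Or.inr hx
    · left
      unfold shadow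
      rw [Finset.mem_biUnion]
      refine ⟨Fin.cons (A0 k) v, ?_, ?_⟩
      · rw [mem_init hN, count_cons, count_cons, if_neg A0_ne_A2, if_neg A0_ne_A1]
        obtain ⟨-, h1, h2⟩ := Finset.mem_filter.mp hv
        refine ⟨?_, ?_⟩
        · intro j
          refine Fin.cases ?_ (fun j => ?_) j
          · simp [A0]
          · simpa using h1 j
        · rcases Nat.eq_zero_or_pos (count (A2 k) v) with h3 | h3
          · left; omega
          · right
            refine ⟨by omega, ?_⟩
            by_contra h4
            apply hx
            have h5 := count_three v h1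
            have h6 : count (A0 k) v = 0 := by omega
            have h7 : count (A2 k) v = 1 := by omega
            unfold count at h7
            obtain ⟨p, hp⟩ := Finset.card_eq_one.mp h7
            refine Finset.mem_image.mpr ⟨p, Finset.mem_univ _, ?_⟩
            funext j
            have h8 : v j = A2 k ↔ j = p := by
              have := Finset.ext_iff.mp hp j
              simpa using this
            rw [count_eq_zero_iff] at h6
            simp only [ξ]
            split_ifs with h9
            · exact (h8.mpr h9).symm
            · rcases letter_cases hv j with h | h | h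
              · exact absurd h (h6 j)
              · exact h.symm
              · exact absurd (h8.mp h) h9
      · exact Finset.mem_image.mpr ⟨0, Finset.mem_univ _, deleteLetter_cons _ _⟩
  calc (Full k N).card ≤ _ := Finset.card_le_card hsub
    _ ≤ _ := Finset.card_union_le _ _
    _ ≤ _ := Nat.add_le_add_left (Finset.card_image_le.trans (by simp)) _

end letters

section construction

variable {k M : ℕ}

/-- The forbidden shadow words: those which start with the third letter and have at most one
further letter different from the second, and the word `1 2 1 … 1`. -/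
def T (k M : ℕ) : Finset (Fin (M + 3) → Fin (k + 3)) :=
  (Full k (M + 3)).filter fun v =>
    (v 0 = A2 k ∧ (D v).card ≤ 2) ∨ (v 1 = A2 k ∧ ∀ j, j ≠ 1 → v j = A1 k)

theorem card_T (k M : ℕ) : M + 4 ≤ (T k M).card := by
  let τ : Option (Fin (M + 3)) → (Fin (M + 3) → Fin (k + 3)) := fun o j =>
    match o with
    | none => if j = 1 then A2 k else A1 k
    | some q => if j = 0 then A2 k else if j = q then A0 k else A1 k
  have h01 : (0 : Fin (M + 3)) ≠ 1 := by simp
  have hinj : Function.Injective τ := by
    rintro (_ | q) (_ | q') h
    · rfl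
    · have h1 := congrFun h 0
      simp only [τ, if_neg h01, if_true] at h1
      exact absurd h1 A1_ne_A2
    · have h1 := congrFun h 0
      simp only [τ, if_neg h01, if_true] at h1
      exact absurd h1.symm A1_ne_A2
    · congr 1
      by_contra hne
      have h1 := congrFun h q
      have h2 := congrFun h q'
      simp only [τ, if_true, if_neg hne, if_neg (Ne.symm hne)] at h1 h2
      split_ifs at h1 h2 with h3 h4
      · exact hne (h3.trans h4.symm)
      · exact A0_ne_A1 h2.symm
      · exact A0_ne_A1 h1
      · exact A0_ne_A1 h1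
  have hsub : (univ : Finset (Option (Fin (M + 3)))).image τ ⊆ T k M := by
    intro v hv
    obtain ⟨o, -, rfl⟩ := Finset.mem_image.mp hv
    have huniq : ∃ p, ∀ j, τ o j = A2 k → j = p := by
      rcases o with _ | q
      · refine ⟨1, fun j hj => ?_⟩
        by_contra hne
        simp only [τ, if_neg hne] at hj
        exact A1_ne_A2 hj
      · refine ⟨0, fun j hj => ?_⟩
        by_contra hne
        simp only [τ, if_neg hne] at hj
        split_ifs at hj
        · exact A0_ne_A2 hj
        · exact A1_ne_A2 hj
    unfold T Full
    rw [Finset.mem_filter, Finset.mem_filter]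
    refine ⟨⟨Finset.mem_univ _, ?_, ?_⟩, ?_⟩
    · intro j
      rcases o with _ | q
      · simp only [τ]
        split_ifs <;> simp [A1, A2]
      · simp only [τ]
        split_ifs <;> simp [A0, A1, A2]
    · obtain ⟨p, hp⟩ := huniq
      unfold count
      rw [Finset.card_le_one]
      intro a ha b hb
      rw [hp a (Finset.mem_filter.mp ha).2, hp b (Finset.mem_filter.mp hb).2]
    · rcases o with _ | q
      · right
        refine ⟨by simp [τ], fun j hj => by simp [τ, hj]⟩
      · left
        refine ⟨by simp [τ], ?_⟩
        have : D (τ (some q)) ⊆ {0, q} := by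
          intro j hj
          rw [mem_D] at hj
          simp only [τ] at hj
          split_ifs at hj with h3 h4
          · simp [h3]
          · simp [h4]
          · exact absurd rfl hj
        exact (Finset.card_le_card this).trans Finset.card_le_two
  calc M + 4 = (univ : Finset (Option (Fin (M + 3)))).card := by simp
    _ = ((univ : Finset (Option (Fin (M + 3)))).image τ).card :=
        (Finset.card_image_of_injective _ hinj).symm
    _ ≤ _ := Finset.card_le_card hsub

theorem succAbove_val {m : ℕ} (i : Fin (m + 1)) (j : Fin m) :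
    (i.succAbove j).val = if j.val < i.val then j.val else j.val + 1 := by
  unfold Fin.succAbove
  simp only [Fin.lt_def, Fin.val_castSucc]
  split_ifs <;> rfl

/-- The words of `Full` having a forbidden word in their shadow. -/
def U (k M : ℕ) : Finset (Fin (M + 4) → Fin (k + 3)) :=
  (Full k (M + 4)).filter fun w => ∃ i, deleteLetter w i ∈ T k M

def U1 (k M : ℕ) : Finset (Fin (M + 4) → Fin (k + 3)) :=
  (Full k (M + 4)).filter fun w => w 0 = A2 k ∧ (D w).card ≤ 3

def U2 (k M : ℕ) : Finset (Fin (M + 4) → Fin (k + 3)) :=
  (Full k (M + 4)).filter fun w => w 1 = A2 k ∧ ((D w).erase 0).card ≤ 2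

def U3 (k M : ℕ) : Finset (Fin (M + 4) → Fin (k + 3)) :=
  (Full k (M + 4)).filter fun w =>
    w 2 = A2 k ∧ (∀ j, 3 ≤ j.val → w j = A1 k) ∧ (w 0 = A1 k ∨ w 1 = A1 k)

theorem U_subset : U k M ⊆ U1 k M ∪ (U2 k M ∪ U3 k M) := by
  intro w hw
  obtain ⟨hF, i, hi⟩ := Finset.mem_filter.mp hw
  obtain ⟨-, ht⟩ := Finset.mem_filter.mp hi
  have hD : D w ⊆ insert i ((D (deleteLetter w i)).image i.succAbove) := by
    intro j hj
    rw [Finset.mem_insert]
    by_cases hji : j = i
    · exact Or.inl hji
    · right
      obtain ⟨j', rfl⟩ := Fin.exists_succAbove_eq hji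
      refine Finset.mem_image.mpr ⟨j', ?_, rfl⟩
      rw [mem_D] at hj ⊢
      exact hj
  have hDc : (D w).card ≤ (D (deleteLetter w i)).card + 1 :=
    (Finset.card_le_card hD).trans ((Finset.card_insert_le _ _).trans
      (Nat.add_le_add_right Finset.card_image_le 1))
  rw [Finset.mem_union, Finset.mem_union]
  rcases ht with ⟨h0, hc⟩ | ⟨h1, hr⟩
  · by_cases hi0 : i = 0
    · right; left
      subst hi0
      refine Finset.mem_filter.mpr ⟨hF, ?_, ?_⟩
      · exact h0
      · have : (D w).erase 0 ⊆ (D (deleteLetter w 0)).image (0 : Fin (M + 4)).succAbove := by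
          intro j hj
          obtain ⟨h2, h3⟩ := Finset.mem_erase.mp hj
          rcases Finset.mem_insert.mp (hD h3) with h4 | h4
          · exact absurd h4 h2
          · exact h4
        exact (Finset.card_le_card this).trans (Finset.card_image_le.trans hc)
    · left
      refine Finset.mem_filter.mpr ⟨hF, ?_, by omega⟩
      have : i.succAbove 0 = 0 := by
        apply Fin.ext
        rw [succAbove_val]
        have : i.val ≠ 0 := fun h => hi0 (Fin.ext h)
        simp
        omega
      rw [← h0]
      unfold deleteLetter
      rw [this]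
  · by_cases hi2 : i.val < 2
    · right; right
      have h2 : i.succAbove 1 = 2 := by
        apply Fin.ext
        rw [succAbove_val, Fin.val_one, Fin.val_two]
        split_ifs <;> omega
      refine Finset.mem_filter.mpr ⟨hF, ?_, ?_, ?_⟩
      · rw [← h1]
        unfold deleteLetter
        rw [h2]
      · intro j hj
        have hji : j ≠ i := by
          rintro rfl
          omega
        obtain ⟨j', rfl⟩ := Fin.exists_succAbove_eq hji
        apply hr j'
        rintro rfl
        rw [h2, Fin.val_two] at hj
        omega
      · have h3 : w (i.succAbove 0) = A1 k := hr 0 (by simp)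
        have h4 : i.succAbove 0 = 0 ∨ i.succAbove 0 = 1 := by
          have : (i.succAbove 0).val = 0 ∨ (i.succAbove 0).val = 1 := by
            rw [succAbove_val]
            split_ifs <;> simp
          rcases this with h | h
          · exact Or.inl (Fin.ext h)
          · exact Or.inr (Fin.ext (by rw [h, Fin.val_one]))
        rcases h4 with h4 | h4
        · left; rw [← h4]; exact h3
        · right; rw [← h4]; exact h3
    · right; left
      have h2 : i.succAbove 1 = 1 := by
        apply Fin.ext
        rw [succAbove_val, Fin.val_one, Fin.val_one]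
        split_ifs <;> omega
      refine Finset.mem_filter.mpr ⟨hF, ?_, ?_⟩
      · rw [← h1]
        unfold deleteLetter
        rw [h2]
      · have hD1 : (D (deleteLetter w i)).card ≤ 1 := by
          rw [Finset.card_le_one]
          intro a ha b hb
          rw [mem_D] at ha hb
          have ha' : a = 1 := by
            by_contra h; exact ha (hr a h)
          have hb' : b = 1 := by
            by_contra h; exact hb (hr b h)
          rw [ha', hb']
        have := Finset.card_le_card (Finset.erase_subset 0 (D w))
        omega

theorem eq_of_D {m : ℕ} {w w' : Fin m → Fin (k + 3)} (hw : w ∈ Full k m) (hw' : w' ∈ Full k m)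
    {p : Fin m} (h1 : w p = A2 k) (h2 : w' p = A2 k) {j : Fin m} (hj : j ≠ p)
    (h : j ∈ D w ↔ j ∈ D w') : w j = w' j := by
  rw [mem_D, mem_D] at h
  have h3 : w j ≠ A2 k := fun h => hj (unique_A2 hw h h1)
  have h4 : w' j ≠ A2 k := fun h => hj (unique_A2 hw' h h2)
  rcases letter_cases hw j with h5 | h5 | h5
  · rcases letter_cases hw' j with h6 | h6 | h6
    · rw [h5, h6]
    · exact absurd h6 (h.mp (by rw [h5]; exact A0_ne_A1))
    · exact absurd h6 h4
  · rcases letter_cases hw' j with h6 | h6 | h6
    · exact absurd h5 (h.mpr (by rw [h6]; exact A0_ne_A1))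
    · rw [h5, h6]
    · exact absurd h6 h4
  · exact absurd h5 h3

theorem card_U1 : (U1 k M).card ≤ 1 + (M + 3) + (M + 3).choose 2 := by
  have hE : ((univ : Finset (Fin (M + 4))).erase 0).card = M + 3 := by
    rw [Finset.card_erase_of_mem (Finset.mem_univ _), Finset.card_univ, Fintype.card_fin]
    omega
  have h := Finset.card_le_card_of_injOn (s := U1 k M)
    (t := (powersetCard 0 ((univ : Finset (Fin (M + 4))).erase 0) ∪
      powersetCard 1 ((univ : Finset (Fin (M + 4))).erase 0)) ∪
      powersetCard 2 ((univ : Finset (Fin (M + 4))).erase 0)) (fun w => (D w).erase 0)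
    (by
      intro w hw
      obtain ⟨hF, h0, hc⟩ := Finset.mem_filter.mp hw
      have h1 : 0 ∈ D w := by rw [mem_D, h0]; exact (A1_ne_A2).symm
      have h2 : ((D w).erase 0).card ≤ 2 := by
        rw [Finset.card_erase_of_mem h1]; omega
      have h3 : (D w).erase 0 ⊆ (univ : Finset (Fin (M + 4))).erase 0 :=
        Finset.erase_subset_erase _ (Finset.subset_univ _)
      have h4 : ((D w).erase 0).card = 0 ∨ ((D w).erase 0).card = 1 ∨ ((D w).erase 0).card = 2 := by
        omega
      simp only [Finset.coe_union, Set.mem_union, Finset.mem_coe, Finset.mem_powersetCard]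
      rcases h4 with h | h | h
      · exact Or.inl (Or.inl ⟨h3, h⟩)
      · exact Or.inl (Or.inr ⟨h3, h⟩)
      · exact Or.inr ⟨h3, h⟩)
    (by
      intro w hw w' hw' hww
      obtain ⟨hF, h0, hc⟩ := Finset.mem_filter.mp hw
      obtain ⟨hF', h0', hc'⟩ := Finset.mem_filter.mp hw'
      funext j
      by_cases hj : j = 0
      · rw [hj, h0, h0']
      · apply eq_of_D hF hF' h0 h0' hj
        have := Finset.ext_iff.mp hww j
        simpa [hj] using this)
  refine h.trans ((Finset.card_union_le _ _).trans ?_)
  refine Nat.add_le_add ((Finset.card_union_le _ _).trans ?_) ?_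
  · rw [Finset.card_powersetCard, Finset.card_powersetCard, hE]
    simp
  · rw [Finset.card_powersetCard, hE]

theorem card_U2 : (U2 k M).card ≤ 2 * (M + 3) := by
  have hE : (((univ : Finset (Fin (M + 4))).erase 0).erase 1).card = M + 2 := by
    rw [Finset.card_erase_of_mem (by simp), Finset.card_erase_of_mem (Finset.mem_univ _),
      Finset.card_univ, Fintype.card_fin]
    omega
  have h := Finset.card_le_card_of_injOn (s := U2 k M)
    (t := ({A0 k, A1 k} : Finset (Fin (k + 3))) ×ˢ
      (powersetCard 0 (((univ : Finset (Fin (M + 4))).erase 0).erase 1) ∪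
      powersetCard 1 (((univ : Finset (Fin (M + 4))).erase 0).erase 1)))
    (fun w => (w 0, ((D w).erase 0).erase 1))
    (by
      intro w hw
      obtain ⟨hF, h0, hc⟩ := Finset.mem_filter.mp hw
      have h1 : 1 ∈ (D w).erase 0 := by
        rw [Finset.mem_erase, mem_D, h0]; exact ⟨by simp, (A1_ne_A2).symm⟩
      have h2 : (((D w).erase 0).erase 1).card ≤ 1 := by
        rw [Finset.card_erase_of_mem h1]; omega
      have h3 : ((D w).erase 0).erase 1 ⊆ ((univ : Finset (Fin (M + 4))).erase 0).erase 1 :=
        Finset.erase_subset_erase _ (Finset.erase_subset_erase _ (Finset.subset_univ _))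
      have h4 : (((D w).erase 0).erase 1).card = 0 ∨ (((D w).erase 0).erase 1).card = 1 := by
        omega
      have h5 : w 0 = A0 k ∨ w 0 = A1 k := by
        rcases letter_cases hF 0 with h | h | h
        · exact Or.inl h
        · exact Or.inr h
        · exact absurd (unique_A2 hF h h0) (by simp)
      rw [Finset.mem_coe, Finset.mem_product]
      refine ⟨by simpa using h5, ?_⟩
      simp only [Finset.mem_union, Finset.mem_powersetCard]
      rcases h4 with h | h
      · exact Or.inl ⟨h3, h⟩
      · exact Or.inr ⟨h3, h⟩)
    (by
      intro w hw w' hw' hww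
      obtain ⟨hF, h0, hc⟩ := Finset.mem_filter.mp hw
      obtain ⟨hF', h0', hc'⟩ := Finset.mem_filter.mp hw'
      obtain ⟨hww1, hww2⟩ := Prod.mk.inj hww
      funext j
      by_cases hj : j = 0
      · rw [hj, hww1]
      · by_cases hj1 : j = 1
        · rw [hj1, h0, h0']
        · apply eq_of_D hF hF' h0 h0' hj1
          have := Finset.ext_iff.mp hww2 j
          simpa [hj, hj1] using this)
  refine h.trans ?_
  rw [Finset.card_product]
  refine Nat.mul_le_mul Finset.card_le_two ((Finset.card_union_le _ _).trans ?_)
  rw [Finset.card_powersetCard, Finset.card_powersetCard, hE]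
  simp
  omega

theorem card_U3 : (U3 k M).card ≤ 3 := by
  have h := Finset.card_le_card_of_injOn (s := U3 k M)
    (t := ({(A0 k, A1 k), (A1 k, A0 k), (A1 k, A1 k)} : Finset (Fin (k + 3) × Fin (k + 3))))
    (fun w => (w 0, w 1))
    (by
      intro w hw
      obtain ⟨hF, h0, hr, hc⟩ := Finset.mem_filter.mp hw
      have hn : ∀ j : Fin (M + 4), j ≠ 2 → w j = A0 k ∨ w j = A1 k := by
        intro j hj
        rcases letter_cases hF j with h | h | h
        · exact Or.inl h
        · exact Or.inr h
        · exact absurd (unique_A2 hF h h0) hj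
      have h02 : (0 : Fin (M + 4)) ≠ 2 := by
        intro h; have := congrArg Fin.val h; rw [Fin.val_two] at this; simp at this
      have h12 : (1 : Fin (M + 4)) ≠ 2 := by
        intro h; have := congrArg Fin.val h; rw [Fin.val_two, Fin.val_one] at this; omega
      rcases hn 0 h02 with h | h <;> rcases hn 1 h12 with h' | h' <;> rcases hc with h3 | h3 <;>
        simp_all [A0_ne_A1, (A0_ne_A1 (k := k)).symm])
    (by
      intro w hw w' hw' hww
      obtain ⟨hF, h0, hr, hc⟩ := Finset.mem_filter.mp hw
      obtain ⟨hF', h0', hr', hc'⟩ := Finset.mem_filter.mp hw'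
      obtain ⟨hww1, hww2⟩ := Prod.mk.inj hww
      funext j
      have : j = 0 ∨ j = 1 ∨ j = 2 ∨ 3 ≤ j.val := by
        have : j.val = 0 ∨ j.val = 1 ∨ j.val = 2 ∨ 3 ≤ j.val := by omega
        rcases this with h | h | h | h
        · exact Or.inl (Fin.ext h)
        · exact Or.inr (Or.inl (Fin.ext (by rw [h, Fin.val_one])))
        · exact Or.inr (Or.inr (Or.inl (Fin.ext (by rw [h, Fin.val_two]))))
        · exact Or.inr (Or.inr (Or.inr h))
      rcases this with h | h | h | h
      · rw [h, hww1]
      · rw [h, hww2]
      · rw [h, h0, h0']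
      · rw [hr j h, hr' j h])
  exact h.trans Finset.card_le_three

theorem card_U : (U k M).card ≤ (M + 4) * (M + 4) := by
  have h1 := Finset.card_le_card (U_subset (k := k) (M := M))
  have h2 := Finset.card_union_le (U1 k M) (U2 k M ∪ U3 k M)
  have h3 := Finset.card_union_le (U2 k M) (U3 k M)
  have h4 := card_U1 (k := k) (M := M)
  have h5 := card_U2 (k := k) (M := M)
  have h6 := card_U3 (k := k) (M := M)
  have h7 : 2 * (M + 3).choose 2 ≤ (M + 3) * (M + 2) := by
    rw [Nat.choose_two_right]
    have := Nat.div_mul_le_self ((M + 3) * (M + 3 - 1)) 2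
    have h8 : M + 3 - 1 = M + 2 := rfl
    rw [h8] at this ⊢
    linarith
  nlinarith

end construction

/-- For every alphabet size `r ≥ 3` and every word length `n + 1 ≥ 4` there is a signature `s` such
that the family of all words with signature at most `s` does not have minimal deletion shadow given
its size. -/
theorem result : ∀ r : ℕ, 3 ≤ r → ∀ n : ℕ, 3 ≤ n →
    ∃ s : Fin r → ℕ, ∑ i, s i = n + 1 ∧ ¬ HasMinimalShadow (initialSegment (n + 1) (toLex s)) := by
  intro r hr n hn
  obtain ⟨k, rfl⟩ : ∃ k, r = k + 3 := ⟨r - 3, by omega⟩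
  obtain ⟨M, rfl⟩ : ∃ M, n = M + 3 := ⟨n - 3, by omega⟩
  refine ⟨sVec k (M + 3), sum_sVec hn, ?_⟩
  intro hmin
  set F := initialSegment (M + 3 + 1) (toLex (sVec k (M + 3))) with hF
  have h1 : F.card + (M + 4) * (M + 4) ≤ (Full k (M + 4)).card := card_init_le hn
  have h2 : F.card ≤ (Full k (M + 4) \ U k M).card := by
    have h3 := Finset.le_card_sdiff (U k M) (Full k (M + 4))
    have h4 := card_U (k := k) (M := M)
    omega
  obtain ⟨G, hGsub, hGcard⟩ := Finset.exists_subset_card_eq h2
  have h3 := hmin G hGcard
  have h4 : shadow G ⊆ Full k (M + 3) \ T k M := by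
    intro v hv
    unfold shadow at hv
    obtain ⟨w, hw, hv⟩ := Finset.mem_biUnion.mp hv
    obtain ⟨i, -, rfl⟩ := Finset.mem_image.mp hv
    obtain ⟨hwF, hwU⟩ := Finset.mem_sdiff.mp (hGsub hw)
    rw [Finset.mem_sdiff]
    constructor
    · obtain ⟨-, h5, h6⟩ := Finset.mem_filter.mp hwF
      refine Finset.mem_filter.mpr ⟨Finset.mem_univ _, fun j => h5 _, ?_⟩
      refine le_trans ?_ h6
      unfold count
      refine Finset.card_le_card_of_injOn (fun j => i.succAbove j) ?_
        (Fin.succAbove_right_injective.injOn)
      intro j hj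
      have hj' := (Finset.mem_filter.mp (Finset.mem_coe.mp hj)).2
      exact Finset.mem_coe.mpr (Finset.mem_filter.mpr ⟨Finset.mem_univ _, hj'⟩)
    · intro hT
      exact hwU (Finset.mem_filter.mpr ⟨hwF, i, hT⟩)
  have h5 : (shadow G).card + (M + 4) ≤ (Full k (M + 3)).card := by
    have h6 : T k M ⊆ Full k (M + 3) := Finset.filter_subset _ _
    have h7 := Finset.card_le_card h4
    have h8 := Finset.card_sdiff_add_card_eq_card h6
    have h9 := card_T k M
    omega
  have h6 := card_shadow_init (k := k) (N := M + 3) hn
  rw [← hF] at h6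
  omega

end Pool.Agent.Results.MP_5f67f4_co.Disproof
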